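import Pool.Agent.Helper65.KH.Goals

/-!
# Packet KH.EX (MP_20ee5e_ag): expansion of products
-/

set_option autoImplicit false

open MvPolynomial

namespace Pool.Agent.Helper69.KH.EX

open Pool.Agent.Helper65.KH

theorem dq_top {ι : Type} [Fintype ι] (M : ℕ) : dq (⊤ : Ideal (MvPolynomial ι ℚ)) M = 0 := by
  unfold dq
  have h : (⊤ : Ideal (MvPolynomial ι ℚ)) ⊔ mm ι M = ⊤ := top_sup_eq _
  rw [h]
  have : Subsingleton (MvPolynomial ι ℚ ⧸ (⊤ : Ideal (MvPolynomial ι ℚ))) :=
    Ideal.Quotient.subsingleton_iff.2 rfl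
  exact Module.finrank_zero_of_subsingleton

theorem one_place (hSA : S_SA) {ι : Type} [Fintype ι] [DecidableEq ι] {Λ : Type} [DecidableEq Λ]
    (b : Λ → MvPolynomial ι ℚ) (Q : Ideal (MvPolynomial ι ℚ)) (M : ℕ) (s : Finset Λ) :
    dq (Ideal.span {∏ l ∈ s, b l} ⊔ Q) M ≤ ∑ l ∈ s, dq (Ideal.span {b l} ⊔ Q) M := by
  induction s using Finset.induction_on with
  | empty =>
    rw [Finset.prod_empty, Ideal.span_singleton_one, top_sup_eq, dq_top, Finset.sum_empty]
  | insert x s hx ih =>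
    rw [Finset.prod_insert hx, Finset.sum_insert hx]
    exact (hSA ι Q (b x) (∏ l ∈ s, b l) M).trans (Nat.add_le_add_left ih _)

theorem range_succ {α : Type} (n : ℕ) (g : Fin (n + 1) → α) :
    Set.range g = insert (g 0) (Set.range fun i : Fin n => g i.succ) := by
  ext x
  constructor
  · rintro ⟨i, rfl⟩
    refine Fin.cases ?_ (fun j => ?_) i
    · exact Set.mem_insert _ _
    · exact Set.mem_insert_of_mem _ ⟨j, rfl⟩
  · intro hx
    rcases hx with hx | ⟨j, hj⟩
    · exact ⟨0, hx.symm⟩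
    · exact ⟨j.succ, hj⟩

theorem gen (hSA : S_SA) {ι : Type} [Fintype ι] [DecidableEq ι] {Λ : Type} [Fintype Λ]
    [DecidableEq Λ] (M : ℕ) : ∀ (n : ℕ) (a : Fin n → Λ → MvPolynomial ι ℚ)
    (Q : Ideal (MvPolynomial ι ℚ)),
    dq (Ideal.span (Set.range fun j => ∏ l, a j l) ⊔ Q) M ≤
      ∑ φ : Fin n → Λ, dq (Ideal.span (Set.range fun j => a j (φ j)) ⊔ Q) M := by
  intro n
  induction n with
  | zero =>
    intro a Q
    rw [Fintype.sum_unique]
    have h : (fun j : Fin 0 => ∏ l, a j l) =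
        fun j : Fin 0 => a j ((default : Fin 0 → Λ) j) := funext fun j => j.elim0
    rw [h]
  | succ n ih =>
    intro a Q
    have h1 : Ideal.span (Set.range fun j : Fin (n + 1) => ∏ l, a j l) ⊔ Q =
        Ideal.span {∏ l, a 0 l} ⊔
          (Ideal.span (Set.range fun i : Fin n => ∏ l, a i.succ l) ⊔ Q) := by
      rw [range_succ n (fun j : Fin (n + 1) => ∏ l, a j l), Ideal.span_insert, sup_assoc]
    rw [h1]
    refine (one_place hSA (a 0) _ M Finset.univ).trans ?_
    have h2 : ∀ l : Λ, dq (Ideal.span {a 0 l} ⊔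
        (Ideal.span (Set.range fun i : Fin n => ∏ l, a i.succ l) ⊔ Q)) M ≤
        ∑ φ : Fin n → Λ, dq (Ideal.span (Set.range fun j => a (Fin.succ j) (φ j)) ⊔
          (Ideal.span {a 0 l} ⊔ Q)) M := by
      intro l
      rw [sup_left_comm]
      exact ih (fun i => a i.succ) (Ideal.span {a 0 l} ⊔ Q)
    refine (Finset.sum_le_sum fun l _ => h2 l).trans (le_of_eq ?_)
    rw [← Fintype.sum_prod_type']
    refine Fintype.sum_equiv (Fin.consEquiv fun _ => Λ) _ _ ?_
    rintro ⟨l, φ⟩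
    have h3 : Ideal.span (Set.range fun j : Fin (n + 1) =>
        a j (((Fin.consEquiv fun _ => Λ) (l, φ) : Fin (n + 1) → Λ) j)) =
        Ideal.span {a 0 l} ⊔ Ideal.span (Set.range fun j => a (Fin.succ j) (φ j)) := by
      rw [range_succ, Ideal.span_insert]
      rfl
    rw [h3, sup_left_comm, sup_assoc]

theorem t (hSA : S_SA) : S_EX := by
  intro ι _ _ Λ _ _ a M
  have e := Fintype.equivFin ι
  have h := gen hSA M (Fintype.card ι) (fun i => a (e.symm i)) ⊥
  have h1 : Ideal.span (Set.range fun i : Fin (Fintype.card ι) => ∏ l, a (e.symm i) l) ⊔ ⊥ =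
      idl fun j => ∏ l, a j l := by
    rw [sup_bot_eq]
    unfold idl
    congr 1
    exact e.symm.surjective.range_comp fun j => ∏ l, a j l
  rw [h1] at h
  refine h.trans (le_of_eq ?_)
  refine Fintype.sum_equiv (Equiv.arrowCongr e.symm (Equiv.refl Λ)) _ _ ?_
  intro φ
  have h2 : Ideal.span (Set.range fun i : Fin (Fintype.card ι) => a (e.symm i) (φ i)) ⊔ ⊥ =
      idl fun j => a j ((Equiv.arrowCongr e.symm (Equiv.refl Λ)) φ j) := by
    rw [sup_bot_eq]
    unfold idl
    congr 1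
    have h3 := e.symm.surjective.range_comp
      fun j => a j ((Equiv.arrowCongr e.symm (Equiv.refl Λ)) φ j)
    rw [← h3]
    congr 1
    funext i
    simp [Equiv.arrowCongr]
  rw [h2]

end Pool.Agent.Helper69.KH.EX
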